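import Mathlib

namespace Pool.Agent.Results.MP_8484b9_co.Stall

variable {n : ℕ}

/-- distinguishing colouring with `d` colours -/
def Dist (G : SimpleGraph (Fin n)) {d : ℕ} (c : Fin n → Fin d) : Prop :=
  ∀ φ : G ≃g G, (∀ v, c (φ v) = c v) → ∀ v, φ v = v

noncomputable def dnum (G : SimpleGraph (Fin n)) : ℕ := sInf {d | ∃ c : Fin n → Fin d, Dist G c}

noncomputable def fixn (G : SimpleGraph (Fin n)) : ℕ :=
  sInf {k | ∃ S : Finset (Fin n), S.card = k ∧ ∀ φ : G ≃g G, (∀ v ∈ S, φ v = v) → ∀ v, φ v = v}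

noncomputable def rho (G : SimpleGraph (Fin n)) (d : ℕ) : ℕ :=
  sInf {k | ∃ (c : Fin n → Fin d) (j : Fin d), Dist G c ∧
    (Finset.univ.filter fun v => c v ≠ j).card = k}

noncomputable def frugal (G : SimpleGraph (Fin n)) : ℕ :=
  sInf {d | dnum G ≤ d ∧ rho G d = fixn G}

def adj (a b : Fin 20) : Bool :=
  if a.val < 16 then (if b.val < 16 then a.val / 4 == b.val / 4 && a != b else a.val % 4 == b.val % 4)
  else (b.val < 16 && a.val % 4 == b.val % 4)

def G : SimpleGraph (Fin 20) where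
  Adj a b := adj a b = true
  symm := ⟨by decide +kernel⟩
  loopless := ⟨by decide +kernel⟩

instance : DecidableRel G.Adj := fun _ _ => inferInstanceAs (Decidable (_ = true))

def step (c : Fin 20 → ℕ) (x : Fin 20) : ℕ :=
  (c x + 5 * ∑ y, if G.Adj x y then c y * c y else 0) % 1009

theorem step_inv (φ : G ≃g G) (c : Fin 20 → ℕ) (h : ∀ v, c (φ v) = c v) (v : Fin 20) :
    step c (φ v) = step c v := by
  unfold step
  rw [h v, ← Equiv.sum_comp φ.toEquiv]
  simp only [RelIso.coe_fn_toEquiv, φ.map_adj_iff, h]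

def tab (l : List ℕ) (x : Fin 20) : ℕ := l.getD x 0

theorem rigid (l0 l1 l2 l3 : List ℕ) (h1 : ∀ x, step (tab l0) x = tab l1 x)
    (h2 : ∀ x, step (tab l1) x = tab l2 x) (h3 : ∀ x, step (tab l2) x = tab l3 x)
    (hi : ∀ x y, tab l3 x = tab l3 y → x = y) (φ : G ≃g G) (h : ∀ v, tab l0 (φ v) = tab l0 v)
    (v : Fin 20) : φ v = v := by
  have a1 : ∀ v, tab l1 (φ v) = tab l1 v := fun v => by rw [← h1, ← h1, step_inv φ _ h]
  have a2 : ∀ v, tab l2 (φ v) = tab l2 v := fun v => by rw [← h2, ← h2, step_inv φ _ a1]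
  exact hi _ _ (by rw [← h3, ← h3, step_inv φ _ a2])

def A0 : List ℕ := [0, 0, 0, 0, 0, 1, 0, 0, 0, 0, 1, 1, 0, 0, 0, 1, 0, 0, 0, 0]
def B0 : List ℕ := [0, 0, 0, 0, 0, 1, 0, 0, 0, 0, 2, 0, 0, 0, 0, 3, 0, 0, 0, 0]

theorem rigA (φ : G ≃g G) (h : ∀ v, tab A0 (φ v) = tab A0 v) (v : Fin 20) : φ v = v :=
  rigid A0 [0, 0, 0, 0, 5, 1, 5, 5, 10, 10, 6, 6, 5, 5, 5, 1, 0, 5, 5, 10]
    [0, 125, 125, 500, 260, 501, 385, 760, 870, 995, 302, 677, 260, 385, 385, 876, 750, 635, 435, 320]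
    [121, 549, 89, 792, 238, 381, 104, 501, 407, 28, 912, 778, 359, 685, 225, 318, 461, 357, 848, 270]
    (by decide +kernel) (by decide +kernel) (by decide +kernel) (by decide +kernel) φ h v

theorem rigB (φ : G ≃g G) (h : ∀ v, tab B0 (φ v) = tab B0 v) (v : Fin 20) : φ v = v :=
  rigid B0 [0, 0, 0, 0, 5, 1, 5, 5, 20, 20, 2, 20, 45, 45, 45, 3, 0, 5, 20, 45]
    [0, 125, 991, 35, 260, 501, 242, 295, 4, 129, 939, 39, 160, 285, 142, 143, 142, 27, 200, 197]
    [25, 416, 703, 386, 445, 551, 500, 616, 208, 644, 228, 178, 843, 7, 51, 744, 64, 233, 216, 383]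
    (by decide +kernel) (by decide +kernel) (by decide +kernel) (by decide +kernel) φ h v

def sw (s x : ℕ) : ℕ := [[0,1,2,3],[1,0,2,3],[2,1,0,3],[3,1,2,0],[0,2,1,3],[0,3,2,1],[0,1,3,2]].getD s []
  |>.getD x 0

def g (k : Fin 48) (v : Fin 20) : Fin 20 :=
  Fin.ofNat 20 (if v.val < 16 then 4 * sw ((k + 1) / 7) (v / 4) + sw ((k + 1) % 7) (v % 4)
    else 16 + sw ((k + 1) % 7) (v % 4))

theorem g_inv : ∀ k v, g k (g k v) = v := by decide +kernel
theorem g_adj : ∀ k a b, adj (g k a) (g k b) = adj a b := by decide +kernel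
theorem g_ne : ∀ k, ∃ v, g k v ≠ v := by decide +kernel

def gi (k : Fin 48) : G ≃g G where
  toFun := g k
  invFun := g k
  left_inv := g_inv k
  right_inv := g_inv k
  map_rel_iff' := by
    intro a b
    show adj (g k a) (g k b) = true ↔ adj a b = true
    rw [g_adj]

def sp (x y z : Fin 20) : Bool := (List.finRange 48).any fun k => g k x == y && g k z == z

def ok (l : List (Fin 20)) : Bool :=
  ((List.finRange 48).any fun k => l.all fun x => g k x == x) ||
    match l with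
    | [x, y, z] => sp x y z && sp x z y && sp y z x
    | _ => false

theorem chk : ((List.range 4).all fun k => (List.sublistsLen k (List.finRange 20)).all ok) = true := by
  decide +kernel

theorem okE (E : Finset (Fin 20)) (hE : E.card ≤ 3) :
    ∃ l : List (Fin 20), (∀ x, x ∈ l ↔ x ∈ E) ∧ l.length = E.card ∧ ok l = true := by
  have hl : ((List.finRange 20).filter (· ∈ E)).length = E.card := by
    rw [← List.toFinset_card_of_nodup ((List.nodup_finRange 20).filter _)]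
    congr 1; ext x; simp
  refine ⟨(List.finRange 20).filter (· ∈ E), by simp, hl, ?_⟩
  have h := chk
  rw [List.all_eq_true] at h
  have h2 := h E.card (List.mem_range.2 (by omega))
  rw [List.all_eq_true] at h2
  exact h2 _ (List.mem_sublistsLen.2 ⟨List.filter_sublist, hl⟩)

theorem notdist {d : ℕ} (c : Fin 20 → Fin d) (j : Fin d) (k : Fin 48)
    (h : ∀ x, c x ≠ j → c (g k x) = c x) : ¬ Dist G c := by
  intro hd
  obtain ⟨v, hv⟩ := g_ne k
  refine hv (hd (gi k) (fun x => ?_) v)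
  show c (g k x) = c x
  by_cases hx : c x = j
  · by_contra hn
    have := h (g k x) (by rw [hx] at hn; exact hn)
    rw [g_inv] at this
    exact hn this.symm
  · exact h x hx

theorem swapc {d : ℕ} (c : Fin 20 → Fin d) (j : Fin d) (x y z : Fin 20) (hs : sp x y z = true)
    (hc : c x = c y) (h : ∀ w, c w ≠ j → w = x ∨ w = y ∨ w = z) : ¬ Dist G c := by
  simp only [sp, List.any_eq_true, Bool.and_eq_true, beq_iff_eq] at hs
  obtain ⟨k, -, h1, h2⟩ := hs
  refine notdist c j k fun w hw => ?_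
  rcases h w hw with rfl | rfl | rfl
  · rw [h1, hc]
  · rw [← h1, g_inv, h1, hc]
  · rw [h2]

theorem low {d : ℕ} (c : Fin 20 → Fin d) (j : Fin d) (hd : Dist G c) :
    3 ≤ (Finset.univ.filter fun v => c v ≠ j).card ∧
      (d ≤ 3 → 4 ≤ (Finset.univ.filter fun v => c v ≠ j).card) := by
  by_cases h3 : (Finset.univ.filter fun v => c v ≠ j).card ≤ 3
  swap
  · omega
  obtain ⟨l, hl, hlen, hok⟩ := okE _ h3
  simp only [Finset.mem_filter, Finset.mem_univ, true_and] at hl
  simp only [ok, Bool.or_eq_true, List.any_eq_true, List.all_eq_true, beq_iff_eq] at hok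
  rcases hok with ⟨k, -, hk⟩ | hok
  · exact absurd hd (notdist c j k fun x hx => by rw [hk x ((hl x).2 hx)])
  · split at hok
    · rename_i x y z
      refine ⟨by rw [← hlen]; simp, fun hd3 => ?_⟩
      exfalso
      simp only [Bool.and_eq_true] at hok
      have hx := (hl x).1 (by simp)
      have hy := (hl y).1 (by simp)
      have hz := (hl z).1 (by simp)
      have hw : ∀ w, c w ≠ j → w = x ∨ w = y ∨ w = z := fun w h => by simpa using (hl w).2 h
      have : c x = c y ∨ c x = c z ∨ c y = c z := by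
        simp only [ne_eq, Fin.ext_iff] at hx hy hz ⊢
        have := (c x).2; have := (c y).2; have := (c z).2; have := j.2
        omega
      rcases this with h | h | h
      · exact swapc c j x y z hok.1.1 h hw hd
      · exact swapc c j x z y hok.1.2 h (fun w h => by rcases hw w h with h | h | h <;> simp [h]) hd
      · exact swapc c j y z x hok.2 h (fun w h => by rcases hw w h with h | h | h <;> simp [h]) hd
    · exact absurd hok (by simp)

theorem rho_eq (d k : ℕ) (c : Fin 20 → Fin d) (j : Fin d) (hd : Dist G c)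
    (hc : (Finset.univ.filter fun v => c v ≠ j).card = k) (hk : (k = 4 ∧ d ≤ 3) ∨ k = 3) :
    rho G d = k := by
  have h1 : rho G d ≤ k := Nat.sInf_le ⟨c, j, hd, hc⟩
  obtain ⟨c', j', hd', hk'⟩ := Nat.sInf_mem (s := {k | ∃ (c : Fin 20 → Fin d) (j : Fin d), Dist G c ∧
    (Finset.univ.filter fun v => c v ≠ j).card = k}) ⟨k, c, j, hd, hc⟩
  have := low c' j' hd'
  unfold rho at *
  omega

theorem dA2 : Dist G fun v => Fin.ofNat 2 (tab A0 v) := fun φ h =>
  rigA φ fun v => (by decide +kernel : ∀ a b, Fin.ofNat 2 (tab A0 a) = Fin.ofNat 2 (tab A0 b) →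
    tab A0 a = tab A0 b) _ _ (h v)

theorem dA3 : Dist G fun v => Fin.ofNat 3 (tab A0 v) := fun φ h =>
  rigA φ fun v => (by decide +kernel : ∀ a b, Fin.ofNat 3 (tab A0 a) = Fin.ofNat 3 (tab A0 b) →
    tab A0 a = tab A0 b) _ _ (h v)

theorem dB4 : Dist G fun v => Fin.ofNat 4 (tab B0 v) := fun φ h =>
  rigB φ fun v => (by decide +kernel : ∀ a b, Fin.ofNat 4 (tab B0 a) = Fin.ofNat 4 (tab B0 b) →
    tab B0 a = tab B0 b) _ _ (h v)

theorem r2 : rho G 2 = 4 := rho_eq 2 4 _ 0 dA2 (by decide +kernel) (by omega)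
theorem r3 : rho G 3 = 4 := rho_eq 3 4 _ 0 dA3 (by decide +kernel) (by omega)
theorem r4 : rho G 4 = 3 := rho_eq 4 3 _ 0 dB4 (by decide +kernel) (by omega)

theorem hD : dnum G = 2 := by
  have h1 : dnum G ≤ 2 := Nat.sInf_le ⟨_, dA2⟩
  obtain ⟨c, hc⟩ := Nat.sInf_mem (s := {d | ∃ c : Fin 20 → Fin d, Dist G c}) ⟨2, _, dA2⟩
  by_contra hn
  refine notdist c (c 0) 0 (fun x _ => Fin.ext ?_) hc
  have := (c (g 0 x)).2; have := (c x).2
  unfold dnum at *
  omega

theorem hF : fixn G = 3 := by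
  have h0 : ∀ φ : G ≃g G, (∀ v ∈ ({5, 10, 15} : Finset (Fin 20)), φ v = v) → ∀ v, φ v = v := by
    intro φ h
    refine rigB φ fun v => ?_
    by_cases hv : v ∈ ({5, 10, 15} : Finset (Fin 20))
    · rw [h v hv]
    · have hz : ∀ w, w ∉ ({5, 10, 15} : Finset (Fin 20)) → tab B0 w = 0 := by decide +kernel
      rw [hz v hv, hz _ fun h' => hv ?_]
      rwa [φ.injective (h _ h')] at h'
  have h1 : fixn G ≤ 3 := Nat.sInf_le ⟨_, by decide, h0⟩
  obtain ⟨S, hS, hf⟩ := Nat.sInf_mem (s := {k | ∃ S : Finset (Fin 20), S.card = k ∧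
    ∀ φ : G ≃g G, (∀ v ∈ S, φ v = v) → ∀ v, φ v = v}) ⟨3, _, by decide, h0⟩
  by_contra hn
  have h2 : S.card ≤ 2 := by unfold fixn at *; omega
  obtain ⟨l, hl, hlen, hok⟩ := okE S (by omega)
  simp only [ok, Bool.or_eq_true, List.any_eq_true, List.all_eq_true, beq_iff_eq] at hok
  rcases hok with ⟨k, -, hk⟩ | hok
  · obtain ⟨v, hv⟩ := g_ne k
    exact hv (hf (gi k) (fun x hx => hk x ((hl x).2 hx)) v)
  · split at hok
    · simp at hlen; omega
    · exact absurd hok (by simp)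

theorem result : ∃ (n : ℕ) (G : SimpleGraph (Fin n)),
    dnum G = 2 ∧ fixn G = 3 ∧ frugal G = 4 ∧ rho G 2 = 4 ∧ rho G 3 = 4 := by
  refine ⟨20, G, hD, hF, ?_, r2, r3⟩
  have hm : 4 ∈ {d | dnum G ≤ d ∧ rho G d = fixn G} := ⟨by rw [hD]; norm_num, by rw [r4, hF]⟩
  have h1 : frugal G ≤ 4 := Nat.sInf_le hm
  obtain ⟨h2, h3⟩ := Nat.sInf_mem ⟨4, hm⟩
  change dnum G ≤ frugal G at h2
  change rho G (frugal G) = fixn G at h3
  rw [hD] at h2
  rw [hF] at h3
  have := r2; have := r3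
  by_contra hn
  have : frugal G = 2 ∨ frugal G = 3 := by omega
  rcases this with h | h <;> rw [h] at h3 <;> omega

end Pool.Agent.Results.MP_8484b9_co.Stall
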